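import Pool.Agent.Kcg.Defs

set_option autoImplicit false

namespace Kcb

open Kcg

/-- Two nonempty disjoint sets of an `m`-connected graph without edges between them: at least `m`
vertices are outside. -/
theorem sep {V : Type} [Fintype V] [DecidableEq V] {G : SimpleGraph V} {m : ℕ} (hG : MConn m G)
    (U W : Finset V) (hU : U.Nonempty) (hW : W.Nonempty) (hUW : Disjoint U W)
    (hno : ∀ x ∈ U, ∀ y ∈ W, ¬ G.Adj x y) : m + U.card + W.card ≤ Fintype.card V := by
  by_contra hlt
  obtain ⟨u, hu⟩ := hU
  obtain ⟨w, hw⟩ := hW
  have hc : (U ∪ W)ᶜ.card < m := by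
    rw [Finset.card_compl, Finset.card_union_of_disjoint hUW]
    have h1 : U.card + W.card ≤ Fintype.card V := by
      rw [← Finset.card_union_of_disjoint hUW]
      exact Finset.card_le_univ _
    omega
  have hcon := hG.2 _ hc
  have hmu : u ∉ (U ∪ W)ᶜ := by
    rw [Finset.mem_compl, not_not]
    exact Finset.mem_union_left _ hu
  have hmw : w ∉ (U ∪ W)ᶜ := by
    rw [Finset.mem_compl, not_not]
    exact Finset.mem_union_right _ hw
  obtain ⟨p⟩ := hcon.preconnected ⟨u, hmu⟩ ⟨w, hmw⟩
  obtain ⟨d, -, h1, h2⟩ := p.exists_boundary_dart {x | (x : V) ∈ U} hu (by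
    intro h
    exact (Finset.disjoint_left.1 hUW) h hw)
  have h3 : (d.snd : V) ∈ U ∪ W := by
    have := d.snd.2
    change (d.snd : V) ∉ (U ∪ W)ᶜ at this
    rwa [Finset.mem_compl, not_not] at this
  rcases Finset.mem_union.1 h3 with h4 | h4
  · exact h2 h4
  · exact hno _ h1 _ h4 d.adj

/-- The degrees are at least `m`. -/
theorem deg_ge {V : Type} [Fintype V] [DecidableEq V] {G : SimpleGraph V} [DecidableRel G.Adj]
    {m : ℕ} (hG : MConn m G) (x : V) : m ≤ (Finset.univ.filter (fun z => G.Adj x z)).card := by
  set N := Finset.univ.filter (fun z => G.Adj x z) with hN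
  have hx : x ∉ N := by
    rw [hN, Finset.mem_filter]
    exact fun h => G.loopless.irrefl x h.2
  by_cases hW : (insert x N)ᶜ.Nonempty
  · have h1 := sep hG {x} (insert x N)ᶜ (Finset.singleton_nonempty x) hW (by
      rw [Finset.disjoint_singleton_left, Finset.mem_compl, not_not]
      exact Finset.mem_insert_self _ _) (by
      intro y hy z hz hyz
      rw [Finset.mem_singleton] at hy
      subst hy
      rw [Finset.mem_compl] at hz
      apply hz
      rw [Finset.mem_insert, hN, Finset.mem_filter]
      exact Or.inr ⟨Finset.mem_univ _, hyz⟩)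
    rw [Finset.card_singleton, Finset.card_compl, Finset.card_insert_of_notMem hx] at h1
    have h2 : N.card + 1 ≤ Fintype.card V := by
      rw [← Finset.card_insert_of_notMem hx]
      exact Finset.card_le_univ _
    omega
  · rw [Finset.not_nonempty_iff_eq_empty] at hW
    have h1 : Fintype.card V = N.card + 1 := by
      have h2 := Finset.card_compl (insert x N)
      rw [hW, Finset.card_empty, Finset.card_insert_of_notMem hx] at h2
      have h3 : N.card + 1 ≤ Fintype.card V := by
        rw [← Finset.card_insert_of_notMem hx]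
        exact Finset.card_le_univ _
      omega
    have := hG.1
    omega

end Kcb
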