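import Mathlib

set_option autoImplicit false

namespace Kcb

variable {V : Type}

/-- The end of the link `i` (between `v i` and `v (i + 1)`) on the side `true`. -/
def aE {k : ℕ} [NeZero k] (v : Fin k → V) (s : V → Bool) (i : Fin k) : V :=
  if s (v i) = true then v i else v (i + 1)

/-- The end of the link `i` on the side `false`. -/
def bE {k : ℕ} [NeZero k] (v : Fin k → V) (s : V → Bool) (i : Fin k) : V :=
  if s (v i) = true then v (i + 1) else v i

/-- Links that change sides: at most `2 * (k / 2)` of them. -/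
theorem links_card (k : ℕ) [NeZero k] (t : Fin k → Bool) (J : Finset (Fin k))
    (hJ : ∀ i ∈ J, t i ≠ t (i + 1)) : J.card ≤ 2 * (k / 2) := by
  have hc : J.card ≤ k := by
    have h := Finset.card_le_univ J
    rwa [Fintype.card_fin] at h
  by_contra hlt
  push Not at hlt
  have hk : J.card = k := by omega
  have hodd : k % 2 = 1 := by omega
  have hJu : J = Finset.univ := (Finset.card_eq_iff_eq_univ J).1 (by rw [hk, Fintype.card_fin])
  have hstep : ∀ i : Fin k, (if t (i + 1) = true then (1 : ZMod 2) else 0) =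
      (if t i = true then (1 : ZMod 2) else 0) + 1 := by
    intro i
    have h := hJ i (by rw [hJu]; exact Finset.mem_univ i)
    cases h1 : t i <;> cases h2 : t (i + 1)
    · exact absurd (h1.trans h2.symm) h
    · simp
    · simp only [if_true, Bool.false_eq_true, if_false]
      decide
    · exact absurd (h1.trans h2.symm) h
  have hsum : ∑ i : Fin k, (if t (i + 1) = true then (1 : ZMod 2) else 0) =
      ∑ i : Fin k, (if t i = true then (1 : ZMod 2) else 0) :=
    Equiv.sum_comp (Equiv.addRight (1 : Fin k)) (fun i => if t i = true then (1 : ZMod 2) else 0)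
  rw [Finset.sum_congr rfl fun i _ => hstep i, Finset.sum_add_distrib] at hsum
  have h0 : ∑ _i : Fin k, (1 : ZMod 2) = 0 := by
    have := hsum
    exact add_eq_left.1 this
  rw [Finset.sum_const, Finset.card_univ, Fintype.card_fin, nsmul_eq_mul, mul_one,
    ZMod.natCast_eq_zero_iff] at h0
  omega

/-- If at most one index is missing, then at least two indices have both neighbours (and
themselves) in `J`. -/
theorem two_good (k : ℕ) (hk : 10 ≤ k) [NeZero k] (J : Finset (Fin k)) (hJ : k - 1 ≤ J.card) :
    2 ≤ (J.filter (fun i => i - 1 ∈ J ∧ i + 1 ∈ J)).card := by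
  have h1 : Jᶜ.card ≤ 1 := by
    rw [Finset.card_compl, Fintype.card_fin]
    omega
  have h2 : (Finset.univ : Finset (Fin k)) ⊆ (J.filter (fun i => i - 1 ∈ J ∧ i + 1 ∈ J)) ∪
      (Jᶜ ∪ (Jᶜ.image (fun i => i + 1) ∪ Jᶜ.image (fun i => i - 1))) := by
    intro i _
    simp only [Finset.mem_union, Finset.mem_filter, Finset.mem_compl, Finset.mem_image]
    by_cases h3 : i ∈ J
    · by_cases h4 : i - 1 ∈ J
      · by_cases h5 : i + 1 ∈ J
        · exact Or.inl ⟨h3, h4, h5⟩
        · exact Or.inr (Or.inr (Or.inr ⟨i + 1, h5, add_sub_cancel_right i 1⟩))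
      · exact Or.inr (Or.inr (Or.inl ⟨i - 1, h4, sub_add_cancel i 1⟩))
    · exact Or.inr (Or.inl h3)
  have h3 := Finset.card_le_card h2
  rw [Finset.card_univ, Fintype.card_fin] at h3
  have h4 := Finset.card_union_le (J.filter (fun i => i - 1 ∈ J ∧ i + 1 ∈ J))
    (Jᶜ ∪ (Jᶜ.image (fun i => i + 1) ∪ Jᶜ.image (fun i => i - 1)))
  have h5 := Finset.card_union_le Jᶜ (Jᶜ.image (fun i => i + 1) ∪ Jᶜ.image (fun i => i - 1))
  have h6 := Finset.card_union_le (Jᶜ.image (fun i => i + 1)) (Jᶜ.image (fun i => i - 1))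
  have h7 : (Jᶜ.image (fun i => i + 1)).card ≤ Jᶜ.card := Finset.card_image_le
  have h8 : (Jᶜ.image (fun i => i - 1)).card ≤ Jᶜ.card := Finset.card_image_le
  omega

/-- A terminal is the end on a given side of at most two links. -/
theorem ends_card {k : ℕ} [NeZero k] [DecidableEq V] (v : Fin k → V) (hv : Function.Injective v)
    (e : Fin k → V) (he : ∀ i, e i = v i ∨ e i = v (i + 1)) (S : Finset (Fin k)) :
    S.card ≤ 2 * (S.image e).card := by
  refine Finset.card_le_mul_card_image S 2 fun x hx => ?_
  obtain ⟨i0, _, hi0⟩ := Finset.mem_image.1 hx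
  obtain ⟨j, hj⟩ : ∃ j, x = v j := by
    rcases he i0 with h | h
    · exact ⟨i0, by rw [← hi0, h]⟩
    · exact ⟨i0 + 1, by rw [← hi0, h]⟩
  have hsub : (S.filter fun i => e i = x) ⊆ {j, j - 1} := by
    intro i hi
    have hi2 := (Finset.mem_filter.1 hi).2
    rw [Finset.mem_insert, Finset.mem_singleton]
    rcases he i with h | h
    · left
      exact hv (by rw [← h, hi2, hj])
    · right
      have : i + 1 = j := hv (by rw [← h, hi2, hj])
      rw [← this, add_sub_cancel_right]
  exact (Finset.card_le_card hsub).trans Finset.card_le_two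

end Kcb
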