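import Pool.Agent.Kcb.Sep
import Pool.Agent.Kcb.Links

set_option autoImplicit false

namespace Kcb

open Kcg Finset

variable {V : Type}

/-- The arithmetic of the case with both separations. -/
theorem arith_main (k h m b sF sJ fA jA jB nF nJ a c : ℕ) (hh : 5 ≤ h) (hm : m + 3 = k + 2 * h)
    (hb : b ≤ 2 * h) (hJ : jA + jB = b) (ha : sJ ≤ 2 * a) (hc : jB ≤ nJ + 2 * c)
    (hs : sJ ≤ jA) (hn : nJ ≤ jB) (hf : sF ≤ fA)
    (h1 : m + a + sF ≤ k + fA + nF) (h2 : m + c + sF ≤ k + fA + nF) :
    sF + sJ + b ≤ fA + jA + nF + nJ := by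
  omega

/-- Degrees: a terminal `v j` has many neighbours in `D` if `E` and `D` are the free vertices; `q`
is a set of non-neighbours of `v j` among the other terminals. -/
theorem deg_bound [Fintype V] [DecidableEq V] {G : SimpleGraph V} [DecidableRel G.Adj] {k m : ℕ}
    (hG : MConn m G) (v : Fin k → V) (hv : Function.Injective v) (D E : Finset V)
    (hcov : ∀ x, x ∈ D ∨ x ∈ E ∨ ∃ j, x = v j) (j : Fin k) (q : Finset (Fin k))
    (hq : ∀ i ∈ q, i ≠ j ∧ ¬ G.Adj (v j) (v i)) :
    m + q.card + 1 ≤ k + E.card + (D.filter (fun z => G.Adj (v j) z)).card := by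
  classical
  have h1 := deg_ge hG (v j)
  have h2 : (Finset.univ.filter (fun z => G.Adj (v j) z)) ⊆
      (D.filter (fun z => G.Adj (v j) z)) ∪ (E ∪ ((insert j q)ᶜ).image v) := by
    intro z hz
    have hz' := (Finset.mem_filter.1 hz).2
    rcases hcov z with h | h | ⟨i, rfl⟩
    · exact Finset.mem_union_left _ (Finset.mem_filter.2 ⟨h, hz'⟩)
    · exact Finset.mem_union_right _ (Finset.mem_union_left _ h)
    · refine Finset.mem_union_right _ (Finset.mem_union_right _ (Finset.mem_image_of_mem v ?_))
      rw [Finset.mem_compl, Finset.mem_insert, not_or]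
      refine ⟨?_, fun h => (hq i h).2 hz'⟩
      rintro rfl
      exact G.loopless.irrefl _ hz'
  have h3 := Finset.card_le_card h2
  have h4 := Finset.card_union_le (D.filter (fun z => G.Adj (v j) z)) (E ∪ ((insert j q)ᶜ).image v)
  have h5 := Finset.card_union_le E (((insert j q)ᶜ).image v)
  have h6 : (((insert j q)ᶜ).image v).card ≤ ((insert j q)ᶜ).card := Finset.card_image_le
  have h7 : (insert j q).card = q.card + 1 := Finset.card_insert_of_notMem fun h => (hq j h).1 rfl
  have h8 : (insert j q).card ≤ k := by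
    have := Finset.card_le_univ (insert j q)
    rwa [Fintype.card_fin] at this
  rw [Finset.card_compl, Fintype.card_fin] at h6
  omega

/-- The condition of Hall's theorem, in the form in which it is proved: `SF` and `SJ` are the parts
of the set in `FA` and in `JA`. -/
theorem cond_core [Fintype V] [DecidableEq V] {G : SimpleGraph V} [DecidableRel G.Adj] {k h m : ℕ}
    [NeZero k] (hh : 5 ≤ h) (hm : m + 3 = k + 2 * h)
    (hG : MConn m G) (v : Fin k → V) (hv : Function.Injective v) (s : V → Bool)
    (FA FB : Finset V) (hFA : ∀ x ∈ FA, s x = true ∧ ∀ j, x ≠ v j)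
    (hFB : ∀ y ∈ FB, s y = false ∧ ∀ j, y ≠ v j)
    (hcard : Fintype.card V = k + FA.card + FB.card)
    (JA JB : Finset (Fin k)) (hdis : Disjoint JA JB)
    (hJ : ∀ i ∈ JA ∪ JB, s (v i) ≠ s (v (i + 1))) (b : ℕ) (hb : JA.card + JB.card = b)
    (hb2 : b ≤ 2 * h)
    (weakA : ∀ i ∈ JA ∪ JB, b ≤ (FB.filter (fun z => G.Adj (aE v s i) z)).card + FA.card + 1)
    (weakB : ∀ i ∈ JA ∪ JB, b ≤ (FA.filter (fun z => G.Adj (bE v s i) z)).card + FB.card + 1)
    (goodA : JA.Nonempty → ∃ i ∈ JA, b ≤ (FB.filter (fun z => G.Adj (aE v s i) z)).card + FA.card)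
    (goodB : JB.Nonempty → ∃ i ∈ JB, b ≤ (FA.filter (fun z => G.Adj (bE v s i) z)).card + FB.card)
    (hsize : b ≤ FA.card + FB.card) (hsplit : (b ≤ FB.card ∧ JB.card = 0) ∨ JB.card + FB.card = b)
    (SF : Finset V) (hSF : SF ⊆ FA) (SJ : Finset (Fin k)) (hSJ : SJ ⊆ JA) :
    SF.card + SJ.card + b ≤ FA.card + JA.card +
      (FB.filter (fun y => (∃ x ∈ SF, G.Adj x y) ∨ ∃ i ∈ SJ, G.Adj (aE v s i) y)).card +
      (JB.filter (fun j => ∃ x ∈ SF, G.Adj x (bE v s j))).card := by
  set NF := FB.filter (fun y => (∃ x ∈ SF, G.Adj x y) ∨ ∃ i ∈ SJ, G.Adj (aE v s i) y) with hNF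
  set NJ := JB.filter (fun j => ∃ x ∈ SF, G.Adj x (bE v s j)) with hNJ
  have hNFs : NF ⊆ FB := Finset.filter_subset _ _
  have hNJs : NJ ⊆ JB := Finset.filter_subset _ _
  have cSF := Finset.card_le_card hSF
  have cSJ := Finset.card_le_card hSJ
  have cNF := Finset.card_le_card hNFs
  have cNJ := Finset.card_le_card hNJs
  -- the neighbours of an end of a link of `SJ` are in `NF`
  have hA : ∀ i ∈ SJ, (FB.filter (fun z => G.Adj (aE v s i) z)).card ≤ NF.card := by
    intro i hi
    refine Finset.card_le_card fun y hy => ?_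
    rw [Finset.mem_filter] at hy
    rw [hNF, Finset.mem_filter]
    exact ⟨hy.1, Or.inr ⟨i, hi, hy.2⟩⟩
  -- the neighbours of an end of a link outside `NJ` are not in `SF`
  have hB : ∀ j ∈ JB, j ∉ NJ →
      (FA.filter (fun z => G.Adj (bE v s j) z)).card + SF.card ≤ FA.card := by
    intro j hj hjn
    rw [← Finset.card_union_of_disjoint]
    · refine Finset.card_le_card fun z hz => ?_
      rcases Finset.mem_union.1 hz with h1 | h1
      · exact (Finset.mem_filter.1 h1).1
      · exact hSF h1
    · rw [Finset.disjoint_left]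
      intro z hz hzS
      refine hjn ?_
      rw [hNJ, Finset.mem_filter]
      exact ⟨hj, z, hzS, ((Finset.mem_filter.1 hz).2).symm⟩
  rcases SF.eq_empty_or_nonempty with h0 | h0
  · have e0 : SF.card = 0 := by rw [h0, Finset.card_empty]
    rcases SJ.eq_empty_or_nonempty with h1 | h1
    · have e1 : SJ.card = 0 := by rw [h1, Finset.card_empty]
      rcases hsplit with h2 | h2 <;> omega
    · by_cases h2 : SJ = JA
      · obtain ⟨i, hi, hgi⟩ := goodA (h2 ▸ h1)
        have h3 := hA i (h2 ▸ hi)
        omega
      · obtain ⟨i, hi⟩ := h1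
        have h3 := hA i hi
        have h4 := weakA i (Finset.mem_union_left _ (hSJ hi))
        have h5 := Finset.card_lt_card (Finset.ssubset_iff_subset_ne.2 ⟨hSJ, h2⟩)
        omega
  · by_cases h1 : NF = FB
    · have e1 : NF.card = FB.card := by rw [h1]
      rcases hsplit with h2 | h2
      · omega
      · by_cases h3 : NJ = JB
        · have e3 : NJ.card = JB.card := by rw [h3]
          omega
        · obtain ⟨j, hj, hjn⟩ := Finset.exists_of_ssubset
            (Finset.ssubset_iff_subset_ne.2 ⟨hNJs, h3⟩)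
          have h4 := hB j hj hjn
          have h5 := weakB j (Finset.mem_union_right _ hj)
          rcases NJ.eq_empty_or_nonempty with h6 | h6
          · obtain ⟨j', hj', hg⟩ := goodB ⟨j, hj⟩
            have h7 := hB j' hj' (by rw [h6]; exact Finset.notMem_empty _)
            omega
          · have h7 := h6.card_pos
            omega
    · -- two separations
      have hW : (FB \ NF).Nonempty := by
        obtain ⟨y, hy, hyn⟩ := Finset.exists_of_ssubset
          (Finset.ssubset_iff_subset_ne.2 ⟨hNFs, h1⟩)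
        exact ⟨y, Finset.mem_sdiff.2 ⟨hy, hyn⟩⟩
      have cW : (FB \ NF).card + NF.card = FB.card := Finset.card_sdiff_add_card_eq_card hNFs
      have haE : ∀ i, aE v s i = v i ∨ aE v s i = v (i + 1) := by
        intro i
        unfold aE
        split_ifs
        · exact Or.inl rfl
        · exact Or.inr rfl
      have hbE : ∀ i, bE v s i = v i ∨ bE v s i = v (i + 1) := by
        intro i
        unfold bE
        split_ifs
        · exact Or.inr rfl
        · exact Or.inl rfl
      have haT : ∀ i, ∃ j, aE v s i = v j := fun i => (haE i).elim (fun h => ⟨_, h⟩) fun h => ⟨_, h⟩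
      have hbT : ∀ i, ∃ j, bE v s i = v j := fun i => (hbE i).elim (fun h => ⟨_, h⟩) fun h => ⟨_, h⟩
      have hAB : ∀ x ∈ FA, ∀ y ∈ FB, x ≠ y := by
        intro x hx y hy hxy
        have h2 := (hFA x hx).1
        have h3 := (hFB y hy).1
        rw [hxy, h3] at h2
        exact absurd h2 (by decide)
      have ha := ends_card v hv (aE v s) haE SJ
      have hc := ends_card v hv (bE v s) hbE (JB \ NJ)
      have cJ : (JB \ NJ).card + NJ.card = JB.card := Finset.card_sdiff_add_card_eq_card hNJs
      have s1 := sep hG (SF ∪ SJ.image (aE v s)) (FB \ NF) (h0.mono Finset.subset_union_left) hW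
        (by
          rw [Finset.disjoint_left]
          intro x hx hxW
          have hxB := (Finset.mem_sdiff.1 hxW).1
          rcases Finset.mem_union.1 hx with h2 | h2
          · exact hAB x (hSF h2) x hxB rfl
          · obtain ⟨i, _, hi⟩ := Finset.mem_image.1 h2
            obtain ⟨j, hj⟩ := haT i
            exact (hFB x hxB).2 j (by rw [← hi, hj]))
        (by
          intro x hx y hy hxy
          obtain ⟨hyB, hyN⟩ := Finset.mem_sdiff.1 hy
          refine hyN ?_
          rw [hNF, Finset.mem_filter]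
          refine ⟨hyB, ?_⟩
          rcases Finset.mem_union.1 hx with h2 | h2
          · exact Or.inl ⟨x, h2, hxy⟩
          · obtain ⟨i, hiS, hi⟩ := Finset.mem_image.1 h2
            exact Or.inr ⟨i, hiS, hi ▸ hxy⟩)
      have c1 : (SF ∪ SJ.image (aE v s)).card = SF.card + (SJ.image (aE v s)).card := by
        refine Finset.card_union_of_disjoint ?_
        rw [Finset.disjoint_left]
        intro x hx hx2
        obtain ⟨i, _, hi⟩ := Finset.mem_image.1 hx2
        obtain ⟨j, hj⟩ := haT i
        exact (hFA x (hSF hx)).2 j (by rw [← hi, hj])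
      have s2 := sep hG SF ((FB \ NF) ∪ (JB \ NJ).image (bE v s)) h0
        (hW.mono Finset.subset_union_left)
        (by
          rw [Finset.disjoint_left]
          intro x hx hxW
          rcases Finset.mem_union.1 hxW with h2 | h2
          · exact hAB x (hSF hx) x (Finset.mem_sdiff.1 h2).1 rfl
          · obtain ⟨i, _, hi⟩ := Finset.mem_image.1 h2
            obtain ⟨j, hj⟩ := hbT i
            exact (hFA x (hSF hx)).2 j (by rw [← hi, hj]))
        (by
          intro x hx y hy hxy
          rcases Finset.mem_union.1 hy with h2 | h2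
          · obtain ⟨hyB, hyN⟩ := Finset.mem_sdiff.1 h2
            refine hyN ?_
            rw [hNF, Finset.mem_filter]
            exact ⟨hyB, Or.inl ⟨x, hx, hxy⟩⟩
          · obtain ⟨i, hiS, hi⟩ := Finset.mem_image.1 h2
            obtain ⟨hiB, hiN⟩ := Finset.mem_sdiff.1 hiS
            refine hiN ?_
            rw [hNJ, Finset.mem_filter]
            exact ⟨hiB, x, hx, hi.symm ▸ hxy⟩)
      have c2 : ((FB \ NF) ∪ (JB \ NJ).image (bE v s)).card =
          (FB \ NF).card + ((JB \ NJ).image (bE v s)).card := by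
        refine Finset.card_union_of_disjoint ?_
        rw [Finset.disjoint_left]
        intro x hx hx2
        obtain ⟨i, _, hi⟩ := Finset.mem_image.1 hx2
        obtain ⟨j, hj⟩ := hbT i
        exact (hFB x (Finset.mem_sdiff.1 hx).1).2 j (by rw [← hi, hj])
      exact arith_main k h m b SF.card SJ.card FA.card JA.card JB.card NF.card NJ.card
        (SJ.image (aE v s)).card ((JB \ NJ).image (bE v s)).card hh hm hb2 hb ha (by omega) cSJ cNJ
        cSF (by omega) (by omega)

end Kcb
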