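import Pool.Agent.Kcg.Defs

set_option autoImplicit false

namespace Kcb

open Kcg

private theorem cyc_succ {k : ℕ} [NeZero k] (hk : 3 ≤ k) (i : ℕ) (hi : i + 1 < k) :
    (⟨i, by omega⟩ + 1 : Fin k) = ⟨i + 1, hi⟩ := by
  apply Fin.ext
  rw [Fin.val_add, Fin.val_one', Nat.mod_eq_of_lt (by omega : 1 < k), Nat.mod_eq_of_lt hi]

private theorem cyc_last {k : ℕ} [NeZero k] (hk : 3 ≤ k) :
    (⟨k - 1, by omega⟩ + 1 : Fin k) = ⟨0, by omega⟩ := by
  apply Fin.ext
  rw [Fin.val_add, Fin.val_one', Nat.mod_eq_of_lt (by omega : 1 < k)]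
  show (k - 1 + 1) % k = 0
  rw [Nat.sub_add_cancel (by omega), Nat.mod_self]

private theorem cyc_sub {V ι : Type} (v : ι → V) (B : ι → List V)
    (h : ∀ i, [v i].Sublist (B i)) (l : List ι) : (l.map v).Sublist (l.map B).flatten := by
  induction l with
  | nil => simp
  | cons a l ih =>
    rw [List.map_cons, List.map_cons, List.flatten_cons]
    exact (h a).append ih

/-- The cycle `v 0, P 0, v 1, P 1, ..., v (k-1), P (k-1)` made of the terminals `v i` and of pairwise
disjoint lists `P i` of other vertices that connect `v i` with `v (i + 1)`. -/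
theorem exists_cycle_lists {V : Type} (G : SimpleGraph V) (k : ℕ) (hk : 3 ≤ k) [NeZero k]
    (v : Fin k → V) (hv : Function.Injective v) (P : Fin k → List V)
    (hch : ∀ i, (v i :: (P i ++ [v (i + 1)])).IsChain G.Adj)
    (hnd : ∀ i, (P i).Nodup)
    (hdis : ∀ i j, i ≠ j → ∀ x ∈ P i, x ∉ P j)
    (hfree : ∀ i, ∀ x ∈ P i, ∀ j, x ≠ v j) :
    ∃ L : List V, IsCycleList G L ∧ (List.ofFn v).Sublist L := by
  classical
  let B : Fin k → List V := fun j => v j :: P j
  have hne : ∀ j, B j ≠ [] := fun j => List.cons_ne_nil _ _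
  have hhead : ∀ j, (B j).head (hne j) = v j := fun j => rfl
  have happ : ∀ j, (B j ++ [v (j + 1)]).IsChain G.Adj := fun j => hch j
  have hchain : ∀ j, (B j).IsChain G.Adj := fun j =>
    (List.isChain_append.1 (happ j)).1
  have hlast : ∀ j, G.Adj ((B j).getLast (hne j)) (v (j + 1)) := by
    intro j
    have h1 := (List.isChain_append.1 (happ j)).2.2 ((B j).getLast (hne j))
      (by rw [List.getLast?_eq_getLast_of_ne_nil (hne j)]; rfl) (v (j + 1)) (by simp)
    exact h1
  have hmem : ∀ j x, x ∈ B j → x = v j ∨ x ∈ P j := fun j x hx => List.mem_cons.1 hx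
  set LB : List (List V) := List.ofFn B with hLB
  have hsub : (List.ofFn v).Sublist LB.flatten := by
    have h1 := cyc_sub v B (fun i => by
      show [v i].Sublist (v i :: P i)
      exact (List.nil_sublist _).cons_cons _) (List.finRange k)
    rwa [← List.ofFn_eq_map, ← List.ofFn_eq_map] at h1
  have hlen : 3 ≤ LB.flatten.length := by
    have h1 := hsub.length_le
    rw [List.length_ofFn] at h1
    omega
  have hLne : LB ≠ [] := by
    intro h
    rw [h] at hlen
    simp at hlen
  refine ⟨LB.flatten, ⟨hlen, ?_, ?_, ?_⟩, hsub⟩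
  · rw [List.nodup_flatten]
    constructor
    · intro l hl
      rw [hLB, List.mem_ofFn] at hl
      obtain ⟨j, rfl⟩ := hl
      show (v j :: P j).Nodup
      rw [List.nodup_cons]
      exact ⟨fun h => hfree j _ h j rfl, hnd j⟩
    · rw [hLB, List.pairwise_ofFn]
      intro i j hij
      rw [List.disjoint_left]
      intro x hx hx'
      rcases hmem i x hx with h1 | h1 <;> rcases hmem j x hx' with h2 | h2
      · exact hij.ne (hv (h1.symm.trans h2))
      · exact hfree j x h2 i h1
      · exact hfree i x h1 j h2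
      · exact hdis i j hij.ne x h1 h2
  · rw [List.isChain_flatten (by
      intro h
      rw [hLB, List.mem_ofFn] at h
      obtain ⟨j, hj⟩ := h
      exact hne j hj)]
    constructor
    · intro l hl
      rw [hLB, List.mem_ofFn] at hl
      obtain ⟨j, rfl⟩ := hl
      exact hchain j
    · rw [List.isChain_iff_getElem]
      intro i hi x hx y hy
      rw [hLB, List.length_ofFn] at hi
      have e1 : LB[i]'(by rw [hLB, List.length_ofFn]; omega) = B ⟨i, by omega⟩ := by
        simp [hLB]
      have e2 : LB[i + 1]'(by rw [hLB, List.length_ofFn]; omega) = B ⟨i + 1, hi⟩ := by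
        simp [hLB]
      rw [e1, List.getLast?_eq_getLast_of_ne_nil (hne _)] at hx
      rw [e2, List.head?_eq_some_head (hne _)] at hy
      rw [Option.mem_some] at hx hy
      rw [← hx, ← hy, hhead, ← cyc_succ hk i hi]
      exact hlast _
  · have hfl : LB.flatten ≠ [] := by
      intro h
      rw [h] at hlen
      simp at hlen
    have e1 : LB.getLast hLne = B ⟨k - 1, by omega⟩ := by
      simp [hLB, List.getLast_ofFn]
    have e2 : LB.head hLne = B ⟨0, by omega⟩ := by
      simp [hLB, List.head_ofFn]
    refine ⟨hfl, ?_⟩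
    have e3 : LB.flatten.getLast hfl = (B ⟨k - 1, by omega⟩).getLast (hne _) := by
      rw [List.getLast_flatten_eq_getLast_getLast hfl (by rw [e1]; exact hne _)]
      congr 1
    have e4 : LB.flatten.head hfl = v ⟨0, by omega⟩ := by
      rw [List.head_flatten_eq_head_head hfl (by rw [e2]; exact hne _), ← hhead]
      congr 1
    rw [e3, e4, ← cyc_last hk]
    exact hlast _

end Kcb
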