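import Pool.Agent.Kcb.Main

set_option autoImplicit false

namespace Kcb.AllK

open Kcg

/-- For `k ≥ 10` the least `m` such that every `m`-connected graph with bipartite complement is
`k`-ordered is `k + 2 * ⌊k / 2⌋ - 3` (that is, `2 * k - 3` for even `k`). -/
theorem result (k : ℕ) (hk : 10 ≤ k) :
    IsLeast {m : ℕ | ∀ (V : Type) [Fintype V] (G : SimpleGraph V),
      Gᶜ.IsBipartite → MConn m G → KOrdered k G} (k + 2 * (k / 2) - 3) := by
  refine ⟨fun V _ G hP hG => Kcb.upper k hk G hP hG, fun m hm => ?_⟩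
  by_contra hlt
  obtain ⟨V, hV, G, h1, h2, h3⟩ := Kcb.lower k hk m (not_le.1 hlt)
  exact h3 (hm V G h1 h2)

end Kcb.AllK
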