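import Pool.Agent.Kcb.Serve

set_option autoImplicit false

namespace Kcb

open Finset

variable {V : Type}

/-- From the condition on `SF` and `SJ` to a matching of size `b`. -/
theorem exists_pairs (G : SimpleGraph V) [DecidableEq V] [DecidableRel G.Adj] {k : ℕ} [NeZero k]
    (v : Fin k → V) (s : V → Bool) (FA FB : Finset V) (JA JB : Finset (Fin k)) (b : ℕ)
    (h : ∀ SF ⊆ FA, ∀ SJ ⊆ JA, SF.card + SJ.card + b ≤ FA.card + JA.card +
      (FB.filter (fun y => (∃ x ∈ SF, G.Adj x y) ∨ ∃ i ∈ SJ, G.Adj (aE v s i) y)).card +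
      (JB.filter (fun j => ∃ x ∈ SF, G.Adj x (bE v s j))).card) :
    ∃ M : Finset ((V ⊕ Fin k) × (V ⊕ Fin k)), b ≤ M.card ∧
      (∀ p ∈ M, Rel G v s FA FB JA JB p.1 p.2) ∧
      (∀ p ∈ M, ∀ q ∈ M, p.1 = q.1 → p = q) ∧ (∀ p ∈ M, ∀ q ∈ M, p.2 = q.2 → p = q) := by
  classical
  obtain ⟨M, hM1, hM2, hM3, hM4⟩ := exists_matching (α := V ⊕ Fin k) (β := V ⊕ Fin k) (FA.disjSum JA)
    (Sum.elim (fun x => (FB.filter (fun y => G.Adj x y)).disjSum (JB.filter (fun j => G.Adj x (bE v s j))))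
      (fun i => (FB.filter (fun y => G.Adj (aE v s i) y)).disjSum (∅ : Finset (Fin k)))) b (by
    intro S hS
    have hSF : S.toLeft ⊆ FA := by
      intro x hx
      have h1 := hS (Finset.mem_toLeft.mp hx)
      exact Finset.inl_mem_disjSum.mp h1
    have hSJ : S.toRight ⊆ JA := by
      intro i hi
      have h1 := hS (Finset.mem_toRight.mp hi)
      exact Finset.inr_mem_disjSum.mp h1
    have h2 := h S.toLeft hSF S.toRight hSJ
    have h3 : (FB.filter (fun y => (∃ x ∈ S.toLeft, G.Adj x y) ∨ ∃ i ∈ S.toRight, G.Adj (aE v s i) y)).disjSum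
        (JB.filter (fun j => ∃ x ∈ S.toLeft, G.Adj x (bE v s j))) ⊆ S.biUnion
        (Sum.elim (fun x => (FB.filter (fun y => G.Adj x y)).disjSum (JB.filter (fun j => G.Adj x (bE v s j))))
          (fun i => (FB.filter (fun y => G.Adj (aE v s i) y)).disjSum (∅ : Finset (Fin k)))) := by
      intro c hc
      rw [Finset.mem_biUnion]
      rcases c with y | j
      · rw [Finset.inl_mem_disjSum, Finset.mem_filter] at hc
        obtain ⟨hy, ⟨x, hx, hxy⟩ | ⟨i, hi, hiy⟩⟩ := hc
        · refine ⟨Sum.inl x, Finset.mem_toLeft.mp hx, ?_⟩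
          rw [Sum.elim_inl, Finset.inl_mem_disjSum, Finset.mem_filter]
          exact ⟨hy, hxy⟩
        · refine ⟨Sum.inr i, Finset.mem_toRight.mp hi, ?_⟩
          rw [Sum.elim_inr, Finset.inl_mem_disjSum, Finset.mem_filter]
          exact ⟨hy, hiy⟩
      · rw [Finset.inr_mem_disjSum, Finset.mem_filter] at hc
        obtain ⟨hj, x, hx, hxj⟩ := hc
        refine ⟨Sum.inl x, Finset.mem_toLeft.mp hx, ?_⟩
        rw [Sum.elim_inl, Finset.inr_mem_disjSum, Finset.mem_filter]
        exact ⟨hj, hxj⟩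
    have h4 := Finset.card_le_card h3
    rw [Finset.card_disjSum] at h4
    have h5 : S.toLeft.card + S.toRight.card = S.card := Finset.card_toLeft_add_card_toRight
    rw [Finset.card_disjSum]
    omega)
  refine ⟨M, hM1, ?_, hM3, hM4⟩
  intro p hp
  obtain ⟨h1, h2⟩ := hM2 p hp
  obtain ⟨p1, p2⟩ := p
  rcases p1 with x | i
  · rcases p2 with y | j
    · simp only [Finset.inl_mem_disjSum, Sum.elim_inl, Finset.mem_filter] at h1 h2
      exact ⟨h1, h2.1, h2.2⟩
    · simp only [Finset.inl_mem_disjSum, Finset.inr_mem_disjSum, Sum.elim_inl, Finset.mem_filter] at h1 h2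
      exact ⟨h1, h2.1, h2.2⟩
  · rcases p2 with y | j
    · simp only [Finset.inl_mem_disjSum, Finset.inr_mem_disjSum, Sum.elim_inr, Finset.mem_filter] at h1 h2
      exact ⟨h1, h2.1, h2.2⟩
    · simp only [Sum.elim_inr, Finset.inr_mem_disjSum, Finset.notMem_empty] at h2

end Kcb
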