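import Pool.Agent.Kcg.Count

set_option autoImplicit false

namespace Kcb

open Kcg

/-- Consecutive numbers among `0, ..., k - 1`, for even `k` in cyclic order. -/
def Cons (k i j : ℕ) : Prop :=
  j = i + 1 ∨ i = j + 1 ∨ (k % 2 = 0 ∧ ((i = 0 ∧ j + 1 = k) ∨ (j = 0 ∧ i + 1 = k)))

/-- The complement of a cycle (for even `k`) or of a path (for odd `k`) on `k` vertices, and `u` more
vertices adjacent to everything. -/
def lowCo (k u : ℕ) : SimpleGraph (Fin k ⊕ Fin u) where
  Adj x y := x ≠ y ∧ ∀ i j : Fin k, x = Sum.inl i → y = Sum.inl j → ¬ Cons k i j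
  symm := ⟨fun _ _ h => ⟨h.1.symm, fun i j hi hj hc => h.2 j i hj hi (by
    unfold Cons at hc ⊢
    omega)⟩⟩
  loopless := ⟨fun _ h => h.1 rfl⟩

theorem lowCo_bip (k u : ℕ) : (lowCo k u)ᶜ.IsBipartite := by
  refine ⟨SimpleGraph.Coloring.mk
    (fun x => Sum.elim (fun i : Fin k => if (i : ℕ) % 2 = 0 then (0 : Fin 2) else 1) (fun _ => 0) x)
    ?_⟩
  intro x y h
  rw [SimpleGraph.compl_adj] at h
  obtain ⟨hne, hna⟩ := h
  have h2 : ¬ ∀ i j : Fin k, x = Sum.inl i → y = Sum.inl j → ¬ Cons k i j :=
    fun hh => hna ⟨hne, hh⟩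
  push Not at h2
  obtain ⟨i, j, rfl, rfl, hc⟩ := h2
  have hpar : (i : ℕ) % 2 ≠ (j : ℕ) % 2 := by
    unfold Cons at hc
    omega
  simp only [Sum.elim_inl]
  split_ifs with h3 h4 h4
  · omega
  · exact Fin.zero_ne_one
  · exact Fin.zero_ne_one.symm
  · omega

private theorem lcon_adj {k u : ℕ} {i j : Fin k} (h : i ≠ j) (hc : ¬ Cons k i j) :
    (lowCo k u).Adj (Sum.inl i) (Sum.inl j) := by
  refine ⟨fun he => h (Sum.inl_injective he), fun a b ha hb => ?_⟩
  rw [← Sum.inl_injective ha, ← Sum.inl_injective hb]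
  exact hc

private theorem lcon_adj' {k u : ℕ} {i : Fin k} {c : Fin u} :
    (lowCo k u).Adj (Sum.inl i) (Sum.inr c) :=
  ⟨by simp, fun a b _ hb => by simp at hb⟩

theorem lowCo_conn (k u m : ℕ) (hk : 10 ≤ k) (h : m + 3 ≤ k + u) : MConn m (lowCo k u) := by
  classical
  have hc : Fintype.card (Fin k ⊕ Fin u) = k + u := by simp
  refine ⟨by rw [hc]; omega, fun S hS => ?_⟩
  have hSc : 4 ≤ Sᶜ.card := by
    rw [Finset.card_compl, hc]
    omega
  rw [SimpleGraph.connected_iff]
  constructor
  · rintro ⟨x, hx⟩ ⟨y, hy⟩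
    by_cases hxy : (lowCo k u).Adj x y
    · exact SimpleGraph.Adj.reachable (by exact hxy)
    by_cases hxy' : x = y
    · subst hxy'
      exact SimpleGraph.Reachable.refl _
    obtain ⟨i, j, rfl, rfl, hij⟩ : ∃ i j : Fin k, x = Sum.inl i ∧ y = Sum.inl j ∧ Cons k i j := by
      by_contra hcon
      push Not at hcon
      exact hxy ⟨hxy', fun i j hi hj => hcon i j hi hj⟩
    have hij' : i ≠ j := fun he => hxy' (by rw [he])
    have h2 : 1 < (Sᶜ \ {Sum.inl i, Sum.inl j}).card := by
      have h3 := Finset.le_card_sdiff ({Sum.inl i, Sum.inl j} : Finset (Fin k ⊕ Fin u)) Sᶜ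
      have h4 : ({Sum.inl i, Sum.inl j} : Finset (Fin k ⊕ Fin u)).card ≤ 2 := Finset.card_le_two
      omega
    obtain ⟨w₁, hw₁, w₂, hw₂, hne⟩ := Finset.one_lt_card.1 h2
    simp only [Finset.mem_sdiff, Finset.mem_compl, Finset.mem_insert, Finset.mem_singleton, not_or] at hw₁ hw₂
    obtain ⟨hw1, h1i, h1j⟩ := hw₁
    obtain ⟨hw2, h2i, h2j⟩ := hw₂
    have via : ∀ z, z ∉ S → (lowCo k u).Adj (Sum.inl i) z → (lowCo k u).Adj (Sum.inl j) z →
        ((lowCo k u).induce {x | x ∉ S}).Reachable ⟨Sum.inl i, hx⟩ ⟨Sum.inl j, hy⟩ := by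
      intro z hz a1 a2
      have e1 : ((lowCo k u).induce {x | x ∉ S}).Adj ⟨Sum.inl i, hx⟩ ⟨z, hz⟩ := a1
      have e2 : ((lowCo k u).induce {x | x ∉ S}).Adj ⟨Sum.inl j, hy⟩ ⟨z, hz⟩ := a2
      exact e1.reachable.trans e2.reachable.symm
    have via2 : ∀ z z', z ∉ S → z' ∉ S → (lowCo k u).Adj (Sum.inl i) z → (lowCo k u).Adj z z' →
        (lowCo k u).Adj (Sum.inl j) z' →
        ((lowCo k u).induce {x | x ∉ S}).Reachable ⟨Sum.inl i, hx⟩ ⟨Sum.inl j, hy⟩ := by
      intro z z' hz hz' a1 a3 a2
      have e1 : ((lowCo k u).induce {x | x ∉ S}).Adj ⟨Sum.inl i, hx⟩ ⟨z, hz⟩ := a1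
      have e3 : ((lowCo k u).induce {x | x ∉ S}).Adj ⟨z, hz⟩ ⟨z', hz'⟩ := a3
      have e2 : ((lowCo k u).induce {x | x ∉ S}).Adj ⟨Sum.inl j, hy⟩ ⟨z', hz'⟩ := a2
      exact (e1.reachable.trans e3.reachable).trans e2.reachable.symm
    rcases w₁ with l₁ | c₁
    swap
    · exact via _ hw1 lcon_adj' lcon_adj'
    rcases w₂ with l₂ | c₂
    swap
    · exact via _ hw2 lcon_adj' lcon_adj'
    have n1i : l₁ ≠ i := fun he => h1i (by rw [he])
    have n1j : l₁ ≠ j := fun he => h1j (by rw [he])
    have n2i : l₂ ≠ i := fun he => h2i (by rw [he])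
    have n2j : l₂ ≠ j := fun he => h2j (by rw [he])
    have n12 : l₁ ≠ l₂ := fun he => hne (by rw [he])
    have v1 : (l₁ : ℕ) ≠ i := fun he => n1i (Fin.ext he)
    have v2 : (l₁ : ℕ) ≠ j := fun he => n1j (Fin.ext he)
    have v3 : (l₂ : ℕ) ≠ i := fun he => n2i (Fin.ext he)
    have v4 : (l₂ : ℕ) ≠ j := fun he => n2j (Fin.ext he)
    have v5 : (l₁ : ℕ) ≠ l₂ := fun he => n12 (Fin.ext he)
    have v6 : (i : ℕ) ≠ j := fun he => hij' (Fin.ext he)
    have b1 := i.2
    have b2 := j.2
    have b3 := l₁.2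
    have b4 := l₂.2
    by_cases c1 : Cons k i l₁ <;> by_cases c2 : Cons k j l₁
    · exfalso
      unfold Cons at hij c1 c2
      omega
    · by_cases c3 : Cons k i l₂
      · exfalso
        unfold Cons at hij c1 c3
        omega
      by_cases c4 : Cons k j l₂
      · have c5 : ¬ Cons k l₂ l₁ := by
          intro c5
          unfold Cons at hij c1 c4 c5
          omega
        exact via2 _ _ hw2 hw1 (lcon_adj n2i.symm c3) (lcon_adj n12.symm c5) (lcon_adj n1j.symm c2)
      · exact via _ hw2 (lcon_adj n2i.symm c3) (lcon_adj n2j.symm c4)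
    · by_cases c4 : Cons k j l₂
      · exfalso
        unfold Cons at hij c2 c4
        omega
      by_cases c3 : Cons k i l₂
      · have c5 : ¬ Cons k l₁ l₂ := by
          intro c5
          unfold Cons at hij c2 c3 c5
          omega
        exact via2 _ _ hw1 hw2 (lcon_adj n1i.symm c1) (lcon_adj n12 c5) (lcon_adj n2j.symm c4)
      · exact via _ hw2 (lcon_adj n2i.symm c3) (lcon_adj n2j.symm c4)
    · exact via _ hw1 (lcon_adj n1i.symm c1) (lcon_adj n1j.symm c2)
  · obtain ⟨z, hz⟩ := Finset.card_pos.1 (show 0 < Sᶜ.card by omega)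
    exact ⟨⟨z, Finset.mem_compl.1 hz⟩⟩

private theorem lnot_len {A B : Type} [Fintype A] [Fintype B] (L : List (A ⊕ B)) (hL : L.Nodup)
    (h : ∀ x ∈ L, x.isLeft = true) : L.length ≤ Fintype.card A := by
  classical
  rw [← List.toFinset_card_of_nodup hL]
  have h1 : L.toFinset ⊆ (Finset.univ : Finset A).image Sum.inl := by
    intro x hx
    rw [List.mem_toFinset] at hx
    obtain ⟨a, rfl⟩ := Sum.isLeft_iff.1 (h x hx)
    exact Finset.mem_image_of_mem _ (Finset.mem_univ a)
  exact (Finset.card_le_card h1).trans Finset.card_image_le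

private theorem lnot_len' {A B : Type} [Fintype A] [Fintype B] (L : List (A ⊕ B)) (hL : L.Nodup)
    (h : ∀ x ∈ L, x.isLeft = false) : L.length ≤ Fintype.card B := by
  classical
  rw [← List.toFinset_card_of_nodup hL]
  have h1 : L.toFinset ⊆ (Finset.univ : Finset B).image Sum.inr := by
    intro x hx
    rw [List.mem_toFinset] at hx
    obtain ⟨b, rfl⟩ := Sum.isRight_iff.1 (Sum.isLeft_eq_false.1 (h x hx))
    exact Finset.mem_image_of_mem _ (Finset.mem_univ b)
  exact (Finset.card_le_card h1).trans Finset.card_image_le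

private theorem lnot_bad {V : Type} (R : V → V → Prop) [DecidableRel R] (L : List V)
    (h : L.IsChain (fun x y => ¬ R x y)) : L.length ≤ bad R L + 1 := by
  induction L with
  | nil => simp
  | cons x l ih =>
    cases l with
    | nil => simp
    | cons y l =>
      have h1 := List.isChain_cons_cons.1 h
      have h2 := ih h1.2
      have e : bad R (x :: y :: l) = (if R x y then 0 else 1) + bad R (y :: l) := rfl
      rw [e, if_neg h1.1, List.length_cons]
      omega

theorem lowCo_not_ordered (k u : ℕ) (hk : 10 ≤ k) (hu : u + 1 = 2 * (k / 2)) :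
    ¬ KOrdered k (lowCo k u) := by
  classical
  intro hK
  obtain ⟨L, ⟨_, hnd, hch, hne, hcl⟩, hsub⟩ := hK Sum.inl Sum.inl_injective
  have hall : ∀ x ∈ List.ofFn (Sum.inl : Fin k → Fin k ⊕ Fin u), x.isLeft = true := by
    intro x hx
    rw [List.mem_ofFn'] at hx
    obtain ⟨i, rfl⟩ := hx
    rfl
  have hs2 : (List.ofFn (Sum.inl : Fin k → Fin k ⊕ Fin u)).Sublist (L.filter Sum.isLeft) := by
    have h1 := hsub.filter Sum.isLeft
    rwa [List.filter_eq_self.2 hall] at h1
  have hlen : (L.filter Sum.isLeft).length ≤ k := by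
    have h1 := lnot_len (L.filter Sum.isLeft) (hnd.filter _) (fun x hx => (List.mem_filter.1 hx).2)
    rwa [Fintype.card_fin] at h1
  have heq : List.ofFn (Sum.inl : Fin k → Fin k ⊕ Fin u) = L.filter Sum.isLeft :=
    hs2.eq_of_length_le (by rw [List.length_ofFn]; exact hlen)
  have hbad : k ≤ bad (lowCo k u).Adj (L.filter Sum.isLeft) + 1 := by
    have h1 := lnot_bad (lowCo k u).Adj (List.ofFn (Sum.inl : Fin k → Fin k ⊕ Fin u)) (by
      rw [List.isChain_iff_getElem]
      intro i hi
      rw [List.length_ofFn] at hi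
      rw [List.getElem_ofFn, List.getElem_ofFn]
      intro h2
      exact h2.2 _ _ rfl rfl (Or.inl rfl))
    rw [List.length_ofFn, heq] at h1
    exact h1
  have hlen' : (L.filter fun x => !Sum.isLeft x).length ≤ u := by
    have h1 := lnot_len' (L.filter fun x => !Sum.isLeft x) (hnd.filter _) (fun x hx => by
      have h1 := (List.mem_filter.1 hx).2
      simpa using h1)
    rwa [Fintype.card_fin] at h1
  have hb := bad_filter_le (lowCo k u).Adj Sum.isLeft L hch
  have hev : k % 2 = 0 := by omega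
  cases L with
  | nil => exact hne rfl
  | cons a l =>
    cases ha : a.isLeft with
    | false =>
      have e1 : (a :: l).filter Sum.isLeft = l.filter Sum.isLeft := by simp [ha]
      have e2 : (a :: l).filter (fun x => !Sum.isLeft x) =
          a :: l.filter (fun x => !Sum.isLeft x) :=
        List.filter_cons_of_pos (by rw [ha]; rfl)
      rw [e1] at hbad
      rw [e2, List.length_cons] at hlen'
      have := bad_filter_le (lowCo k u).Adj Sum.isLeft l hch.tail
      omega
    | true =>
      have e1 : (a :: l).filter Sum.isLeft = a :: l.filter Sum.isLeft := by simp [ha]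
      obtain ⟨l', g, hlg⟩ : ∃ l' g, a :: l = l' ++ [g] :=
        ⟨(a :: l).dropLast, (a :: l).getLast hne, (List.dropLast_append_getLast hne).symm⟩
      have hg : (a :: l).getLast hne = g := by
        simp only [hlg, List.getLast_append_singleton]
      rw [hg] at hcl
      have hcl' : (lowCo k u).Adj g a := hcl
      cases hgl : g.isLeft with
      | false =>
        have e3 : (a :: l).filter Sum.isLeft = l'.filter Sum.isLeft := by
          rw [hlg, List.filter_append]
          simp [hgl]
        have e4 : ((a :: l).filter (fun x => !Sum.isLeft x)).length =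
            (l'.filter (fun x => !Sum.isLeft x)).length + 1 := by
          have e5 : [g].filter (fun x => !Sum.isLeft x) = [g] := by
            rw [List.filter_cons_of_pos (by rw [hgl]; rfl), List.filter_nil]
          rw [hlg, List.filter_append, List.length_append, e5, List.length_singleton]
        rw [e3] at hbad
        rw [e4] at hlen'
        have hch' : l'.IsChain (lowCo k u).Adj := by
          rw [hlg] at hch
          exact (List.isChain_append.1 hch).1
        have := bad_filter_le (lowCo k u).Adj Sum.isLeft l' hch'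
        omega
      | true =>
        have e3 : (a :: l).filter Sum.isLeft = l'.filter Sum.isLeft ++ [g] := by
          rw [hlg, List.filter_append]
          simp [hgl]
        have hkp : 0 < k := by omega
        -- head
        have h5 : a = Sum.inl ⟨0, hkp⟩ := by
          have h6 : (List.ofFn (Sum.inl : Fin k → Fin k ⊕ Fin u))[0]? = some a := by
            rw [heq, e1]
            rfl
          rw [List.getElem?_ofFn] at h6
          rw [dif_pos hkp] at h6
          exact (Option.some.inj h6).symm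
        have h7 : g = Sum.inl ⟨k - 1, by omega⟩ := by
          have h8 : (List.ofFn (Sum.inl : Fin k → Fin k ⊕ Fin u)).getLast? = some g := by
            rw [heq, e3]
            simp
          rw [List.getLast?_eq_getElem?, List.length_ofFn, List.getElem?_ofFn,
            dif_pos (by omega : k - 1 < k)] at h8
          exact (Option.some.inj h8).symm
        rw [h5, h7] at hcl'
        exact hcl'.2 _ _ rfl rfl (Or.inr (Or.inr ⟨hev, Or.inr ⟨rfl, by simp; omega⟩⟩))

end Kcb
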