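import Pool.Agent.Kcb.Cond
import Pool.Agent.Kcb.Conv
import Pool.Agent.Kcb.Cyc
import Pool.Agent.Kcb.Low

set_option autoImplicit false

namespace Kcb

open Kcg Finset

theorem upper (k : ℕ) (hk : 10 ≤ k) {V : Type} [Fintype V] (G : SimpleGraph V)
    (hP : Gᶜ.IsBipartite) (hG : MConn (k + 2 * (k / 2) - 3) G) : KOrdered k G := by
  classical
  intro v hv
  have : NeZero k := ⟨by omega⟩
  obtain ⟨C⟩ := hP
  set s : V → Bool := fun x => decide (C x = 0) with hsdef
  have hs : ∀ x y, x ≠ y → s x = s y → G.Adj x y := by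
    intro x y hxy hsxy
    by_contra hc
    have h1 : Gᶜ.Adj x y := (SimpleGraph.compl_adj G x y).2 ⟨hxy, hc⟩
    have h2 := C.valid h1
    have h3 : (C x = 0) ↔ (C y = 0) := by simpa [hsdef] using hsxy
    have h4 := (C x).isLt
    have h5 := (C y).isLt
    apply h2
    apply Fin.ext
    have h6 : (C x = 0) ↔ (C x : ℕ) = 0 := by rw [Fin.ext_iff]; simp
    have h7 : (C y = 0) ↔ (C y : ℕ) = 0 := by rw [Fin.ext_iff]; simp
    rw [h6, h7] at h3
    omega
  set h := k / 2 with hh
  set m := k + 2 * h - 3 with hm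
  set FA : Finset V := univ.filter (fun x => s x = true ∧ ∀ j, x ≠ v j) with hFAdef
  set FB : Finset V := univ.filter (fun x => s x = false ∧ ∀ j, x ≠ v j) with hFBdef
  have hFA : ∀ x ∈ FA, s x = true ∧ ∀ j, x ≠ v j := fun x hx => (mem_filter.1 hx).2
  have hFB : ∀ x ∈ FB, s x = false ∧ ∀ j, x ≠ v j := fun x hx => (mem_filter.1 hx).2
  have hcov : ∀ x, x ∈ FB ∨ x ∈ FA ∨ ∃ j, x = v j := by
    intro x
    by_cases hx : ∃ j, x = v j
    · exact Or.inr (Or.inr hx)
    · push Not at hx
      rcases Bool.eq_false_or_eq_true (s x) with h1 | h1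
      · exact Or.inr (Or.inl (mem_filter.2 ⟨mem_univ _, h1, hx⟩))
      · exact Or.inl (mem_filter.2 ⟨mem_univ _, h1, hx⟩)
  have hcard : Fintype.card V = k + FA.card + FB.card := by
    have h1 : (univ : Finset V) = (univ.image v ∪ FA) ∪ FB := by
      ext x
      simp only [mem_univ, mem_union, mem_image, true_and, true_iff]
      rcases hcov x with h2 | h2 | ⟨j, h2⟩
      · exact Or.inr h2
      · exact Or.inl (Or.inr h2)
      · exact Or.inl (Or.inl ⟨j, h2.symm⟩)
    have h2 : Disjoint (univ.image v) FA := by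
      rw [Finset.disjoint_left]
      intro x hx hx'
      obtain ⟨j, -, hj⟩ := mem_image.1 hx
      exact (hFA x hx').2 j hj.symm
    have h3 : Disjoint (univ.image v ∪ FA) FB := by
      rw [Finset.disjoint_left]
      intro x hx hx'
      rcases mem_union.1 hx with h4 | h4
      · obtain ⟨j, -, hj⟩ := mem_image.1 h4
        exact (hFB x hx').2 j hj.symm
      · have h5 := (hFA x h4).1
        rw [(hFB x hx').1] at h5
        exact Bool.noConfusion h5
    rw [← Finset.card_univ, h1, card_union_of_disjoint h3, card_union_of_disjoint h2,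
      card_image_of_injective _ hv, card_univ, Fintype.card_fin]
  set J : Finset (Fin k) := univ.filter (fun i => ¬ G.Adj (v i) (v (i + 1))) with hJdef
  have hJmem : ∀ i, i ∈ J ↔ ¬ G.Adj (v i) (v (i + 1)) := by
    intro i
    simp [hJdef]
  have hk1 : ∀ n : ℕ, 0 < n → n < k → (Fin.ofNat k n : Fin k) ≠ 0 := by
    intro n h1 h2 h3
    have h4 := congrArg Fin.val h3
    rw [Fin.val_ofNat, Nat.mod_eq_of_lt h2, Fin.val_zero] at h4
    omega
  have hone : ∀ i : Fin k, i + 1 ≠ i := by
    intro i h1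
    have h2 : (1 : Fin k) = 0 := by
      have := h1
      simpa using this
    have h3 := congrArg Fin.val h2
    rw [Fin.val_one', Fin.val_zero, Nat.mod_eq_of_lt (by omega)] at h3
    exact one_ne_zero h3
  have htwo : ∀ i : Fin k, i + 1 + 1 ≠ i := by
    intro i h1
    have h2 := congrArg Fin.val h1
    rw [Fin.val_add, Fin.val_add, Fin.val_one', Nat.mod_eq_of_lt (by omega : 1 < k)] at h2
    have h3 := i.isLt
    rcases Nat.lt_or_ge (i.val + 1) k with h4 | h4
    · rw [Nat.mod_eq_of_lt h4] at h2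
      rcases Nat.lt_or_ge (i.val + 1 + 1) k with h5 | h5
      · rw [Nat.mod_eq_of_lt h5] at h2
        omega
      · have h6 : i.val + 1 + 1 = k := by omega
        rw [h6, Nat.mod_self] at h2
        omega
    · have h6 : i.val + 1 = k := by omega
      rw [h6, Nat.mod_self, Nat.zero_add, Nat.mod_eq_of_lt (by omega)] at h2
      omega
  have hJs : ∀ i ∈ J, s (v i) ≠ s (v (i + 1)) := by
    intro i hi h1
    exact (hJmem i).1 hi (hs _ _ (fun h2 => hone i (hv h2).symm) h1)
  have hb2 : J.card ≤ 2 * h := links_card k (fun i => s (v i)) J hJs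
  -- bounds
  have bnd1 : ∀ j : Fin k, ∀ i : Fin k, i ≠ j → ¬ G.Adj (v j) (v i) → ∀ D E : Finset V,
      (∀ x, x ∈ D ∨ x ∈ E ∨ ∃ j, x = v j) →
      2 * h ≤ (D.filter (fun z => G.Adj (v j) z)).card + E.card + 1 := by
    intro j i hij hadj D E hDE
    have h1 := deg_bound hG v hv D E hDE j {i} (by
      intro i' hi'
      rw [mem_singleton] at hi'
      subst hi'
      exact ⟨hij, hadj⟩)
    rw [card_singleton] at h1
    omega
  have bnd2 : ∀ j : Fin k, ∀ i i' : Fin k, i ≠ j → i' ≠ j → i ≠ i' → ¬ G.Adj (v j) (v i) →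
      ¬ G.Adj (v j) (v i') → ∀ D E : Finset V,
      (∀ x, x ∈ D ∨ x ∈ E ∨ ∃ j, x = v j) →
      2 * h ≤ (D.filter (fun z => G.Adj (v j) z)).card + E.card := by
    intro j i i' hij hij' hii' hadj hadj' D E hDE
    have h1 := deg_bound hG v hv D E hDE j {i, i'} (by
      intro i'' hi''
      rw [mem_insert, mem_singleton] at hi''
      rcases hi'' with rfl | rfl
      · exact ⟨hij, hadj⟩
      · exact ⟨hij', hadj'⟩)
    rw [card_pair hii'] at h1
    omega
  have hweak : ∀ i ∈ J, ∀ j, (j = i ∨ j = i + 1) → ∀ D E : Finset V,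
      (∀ x, x ∈ D ∨ x ∈ E ∨ ∃ j, x = v j) →
      2 * h ≤ (D.filter (fun z => G.Adj (v j) z)).card + E.card + 1 := by
    intro i hi j hj D E hDE
    rcases hj with rfl | rfl
    · exact bnd1 j (j + 1) (hone j) ((hJmem j).1 hi) D E hDE
    · exact bnd1 (i + 1) i (fun h1 => hone i h1.symm)
        (fun h1 => (hJmem i).1 hi h1.symm) D E hDE
  have hstrong : ∀ i ∈ J, i - 1 ∈ J → i + 1 ∈ J → ∀ j, (j = i ∨ j = i + 1) → ∀ D E : Finset V,
      (∀ x, x ∈ D ∨ x ∈ E ∨ ∃ j, x = v j) →
      2 * h ≤ (D.filter (fun z => G.Adj (v j) z)).card + E.card := by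
    intro i hi hi1 hi2 j hj D E hDE
    have e1 : i - 1 + 1 = i := sub_add_cancel i 1
    have h3 : ¬ G.Adj (v i) (v (i - 1)) := by
      intro h1
      have h2 := (hJmem (i - 1)).1 hi1
      rw [e1] at h2
      exact h2 h1.symm
    rcases hj with rfl | rfl
    · refine bnd2 j (j - 1) (j + 1) ?_ (hone j) ?_ h3 ((hJmem j).1 hi) D E hDE
      · intro h1
        apply hone (j - 1)
        rw [e1, h1]
      · intro h1
        apply htwo (j - 1)
        rw [e1, h1]
    · refine bnd2 (i + 1) i (i + 1 + 1) (fun h1 => hone i h1.symm) (hone (i + 1))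
        (fun h1 => htwo i h1.symm) (fun h1 => (hJmem i).1 hi h1.symm)
        ((hJmem (i + 1)).1 hi2) D E hDE
  have haE : ∀ i, ∃ j, (j = i ∨ j = i + 1) ∧ aE v s i = v j := by
    intro i
    unfold aE
    split_ifs
    · exact ⟨i, Or.inl rfl, rfl⟩
    · exact ⟨i + 1, Or.inr rfl, rfl⟩
  have hbE : ∀ i, ∃ j, (j = i ∨ j = i + 1) ∧ bE v s i = v j := by
    intro i
    unfold bE
    split_ifs
    · exact ⟨i + 1, Or.inr rfl, rfl⟩
    · exact ⟨i, Or.inl rfl, rfl⟩
  have hcov' : ∀ x, x ∈ FA ∨ x ∈ FB ∨ ∃ j, x = v j := by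
    intro x
    rcases hcov x with h1 | h1 | h1
    · exact Or.inr (Or.inl h1)
    · exact Or.inl h1
    · exact Or.inr (Or.inr h1)
  -- good links
  obtain ⟨Good, hGJ, hG1, hG2, hGa, hGb⟩ : ∃ Good : Finset (Fin k), Good ⊆ J ∧
      (J.Nonempty → Good.Nonempty) ∧ (2 ≤ J.card → 2 ≤ Good.card) ∧
      (∀ i ∈ Good, J.card ≤ (FB.filter (fun z => G.Adj (aE v s i) z)).card + FA.card) ∧
      (∀ i ∈ Good, J.card ≤ (FA.filter (fun z => G.Adj (bE v s i) z)).card + FB.card) := by
    rcases Nat.lt_or_ge J.card (2 * h) with hlt | hge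
    · refine ⟨J, Subset.refl _, id, id, ?_, ?_⟩
      · intro i hi
        obtain ⟨j, hj, he⟩ := haE i
        rw [he]
        have := hweak i hi j hj FB FA hcov
        omega
      · intro i hi
        obtain ⟨j, hj, he⟩ := hbE i
        rw [he]
        have := hweak i hi j hj FA FB hcov'
        omega
    · have h2 := two_good k hk J (by omega)
      refine ⟨J.filter (fun i => i - 1 ∈ J ∧ i + 1 ∈ J), filter_subset _ _, ?_, fun _ => h2, ?_, ?_⟩
      · intro _
        rw [← card_pos]
        omega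
      · intro i hi
        obtain ⟨h3, h4, h5⟩ := mem_filter.1 hi
        obtain ⟨j, hj, he⟩ := haE i
        rw [he]
        have := hstrong i h3 h4 h5 j hj FB FA hcov
        omega
      · intro i hi
        obtain ⟨h3, h4, h5⟩ := mem_filter.1 hi
        obtain ⟨j, hj, he⟩ := hbE i
        rw [he]
        have := hstrong i h3 h4 h5 j hj FA FB hcov'
        omega
  have hsize : J.card ≤ FA.card + FB.card := by
    by_cases hne : J.Nonempty
    · obtain ⟨i, hi⟩ := hG1 hne
      have h1 := hGa i hi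
      have h2 := card_filter_le FB (fun z => G.Adj (aE v s i) z)
      omega
    · rw [not_nonempty_iff_eq_empty] at hne
      rw [hne, card_empty]
      omega
  obtain ⟨JB, hJB, hJBc, hg1, hg2⟩ := exists_split J Good hGJ hG1 hG2 (J.card - FB.card) (by omega)
  set JA := J \ JB with hJAdef
  have hun : JA ∪ JB = J := sdiff_union_of_subset hJB
  have hdis : Disjoint JA JB := sdiff_disjoint
  have hcJ : JA.card + JB.card = J.card := card_sdiff_add_card_eq_card hJB
  have hcond := fun (SF : Finset V) (hSF : SF ⊆ FA) (SJ : Finset (Fin k)) (hSJ : SJ ⊆ JA) =>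
    cond_core (h := h) (m := m) (by omega) (by omega) hG v hv s FA FB hFA hFB hcard JA JB hdis
      (by rw [hun]; exact hJs) J.card hcJ hb2
      (by
        rw [hun]
        intro i hi
        obtain ⟨j, hj, he⟩ := haE i
        rw [he]
        have := hweak i hi j hj FB FA hcov
        omega)
      (by
        rw [hun]
        intro i hi
        obtain ⟨j, hj, he⟩ := hbE i
        rw [he]
        have := hweak i hi j hj FA FB hcov'
        omega)
      (by
        intro hne
        obtain ⟨i, hi, hi'⟩ := hg2 (by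
          have := card_pos.2 hne
          omega)
        exact ⟨i, hi, hGa i hi'⟩)
      (by
        intro hne
        obtain ⟨i, hi, hi'⟩ := hg1 (by
          have := card_pos.2 hne
          omega)
        exact ⟨i, hi, hGb i hi'⟩)
      hsize (by omega) SF hSF SJ hSJ
  obtain ⟨M, hM, hrel, hi1, hi2⟩ := exists_pairs G v s FA FB JA JB J.card hcond
  obtain ⟨P, hp1, hp2, hp3, hp4⟩ := serve G v s hs FA FB hFA hFB JA JB hdis
    (by rw [hun]; exact hJs)
    (by
      rw [hun]
      intro i hi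
      by_contra hc
      exact hi ((hJmem i).2 hc))
    M (by rw [hun]; exact hM) hrel hi1 hi2
  exact exists_cycle_lists G k (by omega) v hv P hp1 hp2 hp3 hp4

theorem lower (k : ℕ) (hk : 10 ≤ k) (m : ℕ) (hm : m < k + 2 * (k / 2) - 3) :
    ∃ (V : Type) (_ : Fintype V) (G : SimpleGraph V),
      Gᶜ.IsBipartite ∧ MConn m G ∧ ¬ KOrdered k G :=
  ⟨Fin k ⊕ Fin (2 * (k / 2) - 1), inferInstance, lowCo k _, lowCo_bip _ _,
    lowCo_conn _ _ m hk (by omega), lowCo_not_ordered _ _ hk (by omega)⟩

end Kcb
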