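import Mathlib

set_option autoImplicit false

namespace Kcb

theorem exists_matching {α β : Type} [DecidableEq α] [DecidableEq β] (L : Finset α)
    (r : α → Finset β) (b : ℕ) (h : ∀ S ⊆ L, S.card + b ≤ L.card + (S.biUnion r).card) :
    ∃ M : Finset (α × β), b ≤ M.card ∧ (∀ p ∈ M, p.1 ∈ L ∧ p.2 ∈ r p.1) ∧
      (∀ p ∈ M, ∀ q ∈ M, p.1 = q.1 → p = q) ∧ (∀ p ∈ M, ∀ q ∈ M, p.2 = q.2 → p = q) := by
  classical
  have hbL : b ≤ L.card := by
    have := h ∅ (Finset.empty_subset _)
    simpa using this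
  set D := L.card - b with hD
  have key := (Finset.all_card_le_biUnion_card_iff_exists_injective
    (fun x : {x // x ∈ L} => (r x.1).disjSum (Finset.univ : Finset (Fin D)))).1 (by
      intro s
      rcases s.eq_empty_or_nonempty with rfl | ⟨x0, hx0⟩
      · simp
      have h1 : ((s.image Subtype.val).biUnion r).disjSum (Finset.univ : Finset (Fin D)) ⊆
          s.biUnion (fun x : {x // x ∈ L} => (r x.1).disjSum (Finset.univ : Finset (Fin D))) := by
        intro y hy
        rw [Finset.mem_biUnion]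
        rcases Finset.mem_disjSum.1 hy with ⟨a, ha, rfl⟩ | ⟨c, hc, rfl⟩
        · obtain ⟨x, hx, hxa⟩ := Finset.mem_biUnion.1 ha
          obtain ⟨z, hz, rfl⟩ := Finset.mem_image.1 hx
          exact ⟨z, hz, Finset.mem_disjSum.2 (Or.inl ⟨a, hxa, rfl⟩)⟩
        · exact ⟨x0, hx0, Finset.mem_disjSum.2 (Or.inr ⟨c, hc, rfl⟩)⟩
      have h2 := Finset.card_le_card h1
      rw [Finset.card_disjSum, Finset.card_univ, Fintype.card_fin] at h2
      have h3 := h (s.image Subtype.val) (by
        intro y hy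
        obtain ⟨z, _, rfl⟩ := Finset.mem_image.1 hy
        exact z.2)
      rw [Finset.card_image_of_injective _ Subtype.val_injective] at h3
      omega)
  obtain ⟨f, hf, hfm⟩ := key
  set A : Finset {x // x ∈ L} := Finset.univ.filter (fun x => (f x).isLeft = true) with hA
  set B : Finset {x // x ∈ L} := Finset.univ.filter (fun x => ¬ (f x).isLeft = true) with hB
  have hAB : A.card + B.card = L.card := by
    have := Finset.card_filter_add_card_filter_not (s := (Finset.univ : Finset {x // x ∈ L}))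
      (fun x => (f x).isLeft = true)
    rw [Finset.card_univ, Fintype.card_coe] at this
    exact this
  have hBD : B.card ≤ D := by
    have h1 : (B.image f) ⊆ (Finset.univ : Finset (Fin D)).map ⟨Sum.inr, Sum.inr_injective⟩ := by
      intro y hy
      obtain ⟨x, hx, rfl⟩ := Finset.mem_image.1 hy
      have hx' : ¬ (f x).isLeft = true := (Finset.mem_filter.1 hx).2
      cases hfx : f x with
      | inl a => rw [hfx] at hx'; exact absurd rfl hx'
      | inr c => exact Finset.mem_map.2 ⟨c, Finset.mem_univ _, rfl⟩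
    have h2 := Finset.card_le_card h1
    rw [Finset.card_image_of_injective _ hf, Finset.card_map, Finset.card_univ,
      Fintype.card_fin] at h2
    exact h2
  have hget : ∀ x ∈ A, ∃ c : β, f x = Sum.inl c := by
    intro x hx
    have hx' : (f x).isLeft = true := (Finset.mem_filter.1 hx).2
    cases hfx : f x with
    | inl a => exact ⟨a, rfl⟩
    | inr c => rw [hfx] at hx'; exact absurd hx' (by simp)
  choose g hg using hget
  refine ⟨A.attach.image (fun x => (x.1.1, g x.1 x.2)), ?_, ?_, ?_, ?_⟩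
  · rw [Finset.card_image_of_injective, Finset.card_attach]
    · omega
    · intro x y hxy
      have := congrArg Prod.fst hxy
      exact Subtype.ext (Subtype.ext this)
  · intro p hp
    obtain ⟨x, _, rfl⟩ := Finset.mem_image.1 hp
    refine ⟨x.1.2, ?_⟩
    have h1 := hfm x.1
    rw [hg x.1 x.2] at h1
    rcases Finset.mem_disjSum.1 h1 with ⟨a, ha, hae⟩ | ⟨c, hc, hce⟩
    · rw [← Sum.inl_injective hae]
      exact ha
    · exact absurd hce (by simp)
  · intro p hp q hq hpq
    obtain ⟨x, _, rfl⟩ := Finset.mem_image.1 hp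
    obtain ⟨y, _, rfl⟩ := Finset.mem_image.1 hq
    have : x = y := Subtype.ext (Subtype.ext hpq)
    rw [this]
  · intro p hp q hq hpq
    obtain ⟨x, _, rfl⟩ := Finset.mem_image.1 hp
    obtain ⟨y, _, rfl⟩ := Finset.mem_image.1 hq
    have h1 : f x.1 = f y.1 := by
      rw [hg x.1 x.2, hg y.1 y.2]
      exact congrArg Sum.inl hpq
    have : x = y := Subtype.ext (hf h1)
    rw [this]

/-- A partial injection from `J` to `M` (given by its inverse `lab` on `M'`) extends to all of `J`
if `J` has at most as many elements as `M`. -/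
theorem exists_phi {ι μ : Type} [DecidableEq ι] [DecidableEq μ] (J : Finset ι) (M M' : Finset μ)
    (hM' : M' ⊆ M) (lab : μ → ι) (hlab : ∀ p ∈ M', lab p ∈ J)
    (hinj : ∀ p ∈ M', ∀ q ∈ M', lab p = lab q → p = q) (hcard : J.card ≤ M.card)
    (hne : M.Nonempty) :
    ∃ φ : ι → μ, (∀ i ∈ J, φ i ∈ M) ∧ (∀ i ∈ J, ∀ j ∈ J, φ i = φ j → i = j) ∧
      (∀ i ∈ J, φ i ∈ M' → lab (φ i) = i) := by
  classical
  obtain ⟨p0, hp0⟩ := hne
  set J0 := M'.image lab with hJ0
  have hJ0J : J0 ⊆ J := by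
    intro i hi
    obtain ⟨p, hp, rfl⟩ := Finset.mem_image.1 hi
    exact hlab p hp
  have hc0 : J0.card = M'.card := Finset.card_image_of_injOn (fun p hp q hq h => hinj p hp q hq h)
  have hc1 : (J \ J0).card ≤ (M \ M').card := by
    rw [Finset.card_sdiff_of_subset hJ0J, Finset.card_sdiff_of_subset hM', hc0]
    omega
  obtain ⟨g⟩ : Nonempty ({x // x ∈ J \ J0} ↪ {x // x ∈ M \ M'}) := by
    apply Function.Embedding.nonempty_of_card_le
    rw [Fintype.card_coe, Fintype.card_coe]
    exact hc1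
  have hex : ∀ i, i ∈ J0 → ∃ p, p ∈ M' ∧ lab p = i := fun i hi => Finset.mem_image.1 hi
  let φ : ι → μ := fun i => if h : i ∈ J0 then (hex i h).choose else
    if h' : i ∈ J \ J0 then (g ⟨i, h'⟩ : μ) else p0
  have hφ1 : ∀ i, i ∈ J0 → φ i ∈ M' ∧ lab (φ i) = i := by
    intro i h
    have e : φ i = (hex i h).choose := dif_pos h
    rw [e]
    exact (hex i h).choose_spec
  have hφ2 : ∀ i, i ∉ J0 → ∀ h' : i ∈ J \ J0, φ i = (g ⟨i, h'⟩ : μ) := by
    intro i h h'
    have e : φ i = if h' : i ∈ J \ J0 then (g ⟨i, h'⟩ : μ) else p0 := dif_neg h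
    rw [e, dif_pos h']
  have hφ3 : ∀ i ∈ J, i ∉ J0 → φ i ∈ M \ M' := by
    intro i hi h
    rw [hφ2 i h (Finset.mem_sdiff.2 ⟨hi, h⟩)]
    exact (g _).2
  refine ⟨φ, ?_, ?_, ?_⟩
  · intro i hi
    by_cases h : i ∈ J0
    · exact hM' (hφ1 i h).1
    · exact (Finset.mem_sdiff.1 (hφ3 i hi h)).1
  · intro i hi j hj hij
    by_cases h : i ∈ J0 <;> by_cases h' : j ∈ J0
    · rw [← (hφ1 i h).2, ← (hφ1 j h').2, hij]
    · exact absurd (hij ▸ (hφ1 i h).1) (Finset.mem_sdiff.1 (hφ3 j hj h')).2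
    · exact absurd (hij ▸ (hφ1 j h').1) (Finset.mem_sdiff.1 (hφ3 i hi h)).2
    · rw [hφ2 i h (Finset.mem_sdiff.2 ⟨hi, h⟩), hφ2 j h' (Finset.mem_sdiff.2 ⟨hj, h'⟩)] at hij
      have := g.injective (Subtype.ext hij)
      exact congrArg Subtype.val this
  · intro i hi h
    by_cases h' : i ∈ J0
    · exact (hφ1 i h').2
    · exact absurd h (Finset.mem_sdiff.1 (hφ3 i hi h')).2

/-- A subset of size `r` of `J` that contains a good element (if `0 < r`) and misses one (if
`r < J.card`). -/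
theorem exists_split {ι : Type} [DecidableEq ι] (J Good : Finset ι) (hG : Good ⊆ J)
    (h1 : J.Nonempty → Good.Nonempty) (h2 : 2 ≤ J.card → 2 ≤ Good.card) (r : ℕ)
    (hr : r ≤ J.card) :
    ∃ JB ⊆ J, JB.card = r ∧ (0 < r → ∃ i ∈ JB, i ∈ Good) ∧
      (r < J.card → ∃ i ∈ J \ JB, i ∈ Good) := by
  rcases Nat.eq_zero_or_pos r with h0 | h0
  · subst h0
    refine ⟨∅, Finset.empty_subset J, rfl, fun h => absurd h (lt_irrefl 0), fun h => ?_⟩
    obtain ⟨g, hg⟩ := h1 (Finset.card_pos.1 h)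
    exact ⟨g, by rw [Finset.sdiff_empty]; exact hG hg, hg⟩
  · rcases Nat.lt_or_ge r J.card with hlt | hge
    · have h3 : 1 < Good.card := h2 (by omega)
      obtain ⟨a, ha, b, hb, hab⟩ := Finset.one_lt_card.1 h3
      have hsub : ({a} : Finset ι) ⊆ J.erase b := by
        intro x hx
        rw [Finset.mem_singleton] at hx
        rw [hx]
        exact Finset.mem_erase.2 ⟨hab, hG ha⟩
      have hc : (J.erase b).card = J.card - 1 := Finset.card_erase_of_mem (hG hb)
      obtain ⟨JB, hJ1, hJ2, hJ3⟩ := Finset.exists_subsuperset_card_eq hsub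
        (n := r) (by rw [Finset.card_singleton]; exact h0) (by rw [hc]; omega)
      refine ⟨JB, fun x hx => Finset.mem_of_mem_erase (hJ2 hx), hJ3, fun _ => ?_, fun _ => ?_⟩
      · exact ⟨a, hJ1 (Finset.mem_singleton_self a), ha⟩
      · refine ⟨b, Finset.mem_sdiff.2 ⟨hG hb, fun hbJ => ?_⟩, hb⟩
        exact (Finset.mem_erase.1 (hJ2 hbJ)).1 rfl
    · have hrJ : r = J.card := le_antisymm hr hge
      refine ⟨J, Finset.Subset.refl J, hrJ.symm, fun h => ?_, fun h => absurd h (not_lt.2 hge)⟩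
      have hJ : J.Nonempty := Finset.card_pos.1 (by omega)
      obtain ⟨g, hg⟩ := h1 hJ
      exact ⟨g, hG hg, hg⟩

end Kcb
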