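import Pool.Agent.Kcb.Links
import Pool.Agent.Kcb.Match

set_option autoImplicit false

namespace Kcb

variable {V : Type}

/-- The pairs that may be matched: a free vertex of side `true` with an adjacent free vertex of side
`false`, a link of `JA` with a free vertex of side `false` adjacent to its end of side `true`, a
link of `JB` with a free vertex of side `true` adjacent to its end of side `false`. -/
def Rel (G : SimpleGraph V) {k : ℕ} [NeZero k] (v : Fin k → V) (s : V → Bool) (FA FB : Finset V)
    (JA JB : Finset (Fin k)) : V ⊕ Fin k → V ⊕ Fin k → Prop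
  | Sum.inl x, Sum.inl y => x ∈ FA ∧ y ∈ FB ∧ G.Adj x y
  | Sum.inl x, Sum.inr j => x ∈ FA ∧ j ∈ JB ∧ G.Adj x (bE v s j)
  | Sum.inr i, Sum.inl y => i ∈ JA ∧ y ∈ FB ∧ G.Adj (aE v s i) y
  | Sum.inr _, Sum.inr _ => False

private def srv_lab {k : ℕ} [NeZero k] : (V ⊕ Fin k) × (V ⊕ Fin k) → Fin k
  | (Sum.inr i, _) => i
  | (Sum.inl _, Sum.inr j) => j
  | (Sum.inl _, Sum.inl _) => 0

private theorem srv_phi (G : SimpleGraph V) [DecidableEq V] {k : ℕ} [NeZero k] (v : Fin k → V)
    (s : V → Bool) (FA FB : Finset V) (JA JB : Finset (Fin k)) (hdis : Disjoint JA JB)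
    (M : Finset ((V ⊕ Fin k) × (V ⊕ Fin k))) (hM : (JA ∪ JB).card ≤ M.card)
    (hrel : ∀ p ∈ M, Rel G v s FA FB JA JB p.1 p.2)
    (h1 : ∀ p ∈ M, ∀ q ∈ M, p.1 = q.1 → p = q) (h2 : ∀ p ∈ M, ∀ q ∈ M, p.2 = q.2 → p = q)
    (hne : M.Nonempty) :
    ∃ φ : Fin k → (V ⊕ Fin k) × (V ⊕ Fin k), (∀ i ∈ JA ∪ JB, φ i ∈ M) ∧
      (∀ i ∈ JA ∪ JB, ∀ j ∈ JA ∪ JB, φ i = φ j → i = j) ∧
      (∀ i ∈ JA ∪ JB, ∀ j, (φ i).1 = Sum.inr j ∨ (φ i).2 = Sum.inr j → j = i) := by
  have hlab : ∀ p ∈ M.filter (fun p => p.1.isRight = true ∨ p.2.isRight = true),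
      srv_lab p ∈ JA ∪ JB := by
    intro p hp
    rw [Finset.mem_filter] at hp
    have h4 := hrel _ hp.1
    revert h4 hp
    rcases p with ⟨x | a, y | b⟩
    · intro hp
      rcases hp.2 with h | h <;> cases h
    · intro _ h4
      exact Finset.mem_union_right _ h4.2.1
    · intro _ h4
      exact Finset.mem_union_left _ h4.1
    · intro _ h4
      exact h4.elim
  have hinj : ∀ p ∈ M.filter (fun p => p.1.isRight = true ∨ p.2.isRight = true),
      ∀ q ∈ M.filter (fun p => p.1.isRight = true ∨ p.2.isRight = true),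
      srv_lab p = srv_lab q → p = q := by
    intro p hp q hq
    rw [Finset.mem_filter] at hp hq
    have h4 := hrel _ hp.1
    have h5 := hrel _ hq.1
    have h6 := h1 _ hp.1 _ hq.1
    have h7 := h2 _ hp.1 _ hq.1
    revert h4 h5 h6 h7 hp hq
    rcases p with ⟨x | a, y | b⟩ <;> rcases q with ⟨x' | a', y' | b'⟩
    all_goals intro hp hq h4 h5 h6 h7 he
    all_goals first
      | exact h4.elim
      | exact h5.elim
      | (exfalso; (rcases hp.2 with h | h <;> cases h); done)
      | (exfalso; (rcases hq.2 with h | h <;> cases h); done)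
      | skip
    · apply h7
      have he' : b = b' := he
      rw [he']
    · have he' : b = a' := he
      exfalso
      exact Finset.disjoint_left.1 hdis h5.1 (he' ▸ h4.2.1)
    · have he' : a = b' := he
      exfalso
      exact Finset.disjoint_left.1 hdis h4.1 (he' ▸ h5.2.1)
    · apply h6
      have he' : a = a' := he
      rw [he']
  obtain ⟨φ, ha, hb, hc⟩ := exists_phi (JA ∪ JB) M
    (M.filter (fun p => p.1.isRight = true ∨ p.2.isRight = true)) (Finset.filter_subset _ _)
    srv_lab hlab hinj hM hne
  refine ⟨φ, ha, hb, ?_⟩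
  intro i hi j hj
  have hmem : φ i ∈ M.filter (fun p => p.1.isRight = true ∨ p.2.isRight = true) := by
    rw [Finset.mem_filter]
    refine ⟨ha i hi, ?_⟩
    rcases hj with hj | hj
    · left
      rw [hj]
      rfl
    · right
      rw [hj]
      rfl
  have h3 := hc i hi hmem
  have h4 := hrel _ (ha i hi)
  revert h3 h4 hj
  generalize φ i = p
  rcases p with ⟨x | a, y | b⟩
  · intro hj
    rcases hj with hj | hj <;> cases hj
  · intro hj h3 _
    rcases hj with hj | hj
    · cases hj
    · cases hj
      exact h3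
  · intro hj h3 _
    rcases hj with hj | hj
    · cases hj
      exact h3
    · cases hj
  · intro _ _ h4
    exact h4.elim

/-- A matching with at least as many pairs as there are links gives disjoint connections. -/
theorem serve (G : SimpleGraph V) [DecidableEq V] {k : ℕ} [NeZero k] (v : Fin k → V)
    (s : V → Bool) (hs : ∀ x y, x ≠ y → s x = s y → G.Adj x y)
    (FA FB : Finset V) (hFA : ∀ x ∈ FA, s x = true ∧ ∀ j, x ≠ v j)
    (hFB : ∀ y ∈ FB, s y = false ∧ ∀ j, y ≠ v j)
    (JA JB : Finset (Fin k)) (hdis : Disjoint JA JB)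
    (hJ : ∀ i, i ∈ JA ∪ JB → s (v i) ≠ s (v (i + 1)))
    (hJ' : ∀ i, i ∉ JA ∪ JB → G.Adj (v i) (v (i + 1)))
    (M : Finset ((V ⊕ Fin k) × (V ⊕ Fin k))) (hM : (JA ∪ JB).card ≤ M.card)
    (hrel : ∀ p ∈ M, Rel G v s FA FB JA JB p.1 p.2)
    (h1 : ∀ p ∈ M, ∀ q ∈ M, p.1 = q.1 → p = q) (h2 : ∀ p ∈ M, ∀ q ∈ M, p.2 = q.2 → p = q) :
    ∃ P : Fin k → List V, (∀ i, (v i :: (P i ++ [v (i + 1)])).IsChain G.Adj) ∧
      (∀ i, (P i).Nodup) ∧ (∀ i j, i ≠ j → ∀ x ∈ P i, x ∉ P j) ∧
      (∀ i, ∀ x ∈ P i, ∀ j, x ≠ v j) := by
  rcases M.eq_empty_or_nonempty with hE | hne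
  · have hJe : JA ∪ JB = ∅ := by
      rw [hE, Finset.card_empty] at hM
      exact Finset.card_eq_zero.1 (Nat.le_zero.1 hM)
    refine ⟨fun _ => [], ?_, fun _ => List.nodup_nil, fun i j _ x hx => ?_, fun i x hx => ?_⟩
    · intro i
      have h := hJ' i (by rw [hJe]; exact Finset.notMem_empty i)
      simpa using h
    · exact absurd hx List.not_mem_nil
    · exact absurd hx List.not_mem_nil
  obtain ⟨φ, ha, hb, hc⟩ := srv_phi G v s FA FB JA JB hdis M hM hrel h1 h2 hne
  have key : ∀ i, ∃ l : List V, (v i :: (l ++ [v (i + 1)])).IsChain G.Adj ∧ l.Nodup ∧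
      ∀ w ∈ l, i ∈ JA ∪ JB ∧ ((s w = true ∧ w ∈ FA ∧ (φ i).1 = Sum.inl w) ∨
        (s w = false ∧ w ∈ FB ∧ (φ i).2 = Sum.inl w)) := by
    intro i
    by_cases hi : i ∈ JA ∪ JB
    · have hne' := hJ i hi
      have hrel' := hrel _ (ha i hi)
      have hc' := hc i hi
      revert hrel' hc'
      generalize φ i = p
      rcases p with ⟨x | a, y | b⟩
      · intro hrel' _
        obtain ⟨hx, hy, hxy⟩ := hrel'
        obtain ⟨sx, nx⟩ := hFA x hx
        obtain ⟨sy, ny⟩ := hFB y hy
        have hxney : x ≠ y := by
          rintro rfl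
          rw [sx] at sy
          cases sy
        cases hsi : s (v i) with
        | true =>
          have hsi' : s (v (i + 1)) = false := by
            rw [hsi] at hne'
            cases h : s (v (i + 1)) with
            | true => rw [h] at hne'; exact absurd rfl hne'
            | false => rfl
          refine ⟨[x, y], ?_, ?_, ?_⟩
          · have e1 : G.Adj (v i) x := hs _ _ (fun h => nx i h.symm) (by rw [hsi, sx])
            have e2 : G.Adj y (v (i + 1)) := hs _ _ (ny (i + 1)) (by rw [hsi', sy])
            simp [e1, e2, hxy]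
          · simp [hxney]
          · intro w hw
            refine ⟨hi, ?_⟩
            rcases List.mem_cons.1 hw with h | h
            · left
              rw [h]
              exact ⟨sx, hx, rfl⟩
            · right
              rw [List.mem_singleton.1 h]
              exact ⟨sy, hy, rfl⟩
        | false =>
          have hsi' : s (v (i + 1)) = true := by
            rw [hsi] at hne'
            cases h : s (v (i + 1)) with
            | true => rfl
            | false => rw [h] at hne'; exact absurd rfl hne'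
          refine ⟨[y, x], ?_, ?_, ?_⟩
          · have e1 : G.Adj (v i) y := hs _ _ (fun h => ny i h.symm) (by rw [hsi, sy])
            have e2 : G.Adj x (v (i + 1)) := hs _ _ (nx (i + 1)) (by rw [hsi', sx])
            simp [e1, e2, hxy.symm]
          · simp [hxney.symm]
          · intro w hw
            refine ⟨hi, ?_⟩
            rcases List.mem_cons.1 hw with h | h
            · right
              rw [h]
              exact ⟨sy, hy, rfl⟩
            · left
              rw [List.mem_singleton.1 h]
              exact ⟨sx, hx, rfl⟩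
      · intro hrel' hc'
        obtain ⟨hx, -, hxb⟩ := hrel'
        obtain ⟨sx, nx⟩ := hFA x hx
        have hbi : b = i := hc' b (Or.inr rfl)
        subst hbi
        refine ⟨[x], ?_, List.nodup_singleton x, ?_⟩
        · unfold bE at hxb
          cases hsi : s (v b) with
          | true =>
            rw [if_pos hsi] at hxb
            have e1 : G.Adj (v b) x := hs _ _ (fun h => nx b h.symm) (by rw [hsi, sx])
            simp [e1, hxb]
          | false =>
            rw [if_neg (by rw [hsi]; exact Bool.false_ne_true)] at hxb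
            have hsi' : s (v (b + 1)) = true := by
              rw [hsi] at hne'
              cases h : s (v (b + 1)) with
              | true => rfl
              | false => rw [h] at hne'; exact absurd rfl hne'
            have e1 : G.Adj x (v (b + 1)) := hs _ _ (nx (b + 1)) (by rw [hsi', sx])
            simp [e1, hxb.symm]
        · intro w hw
          rw [List.mem_singleton.1 hw]
          exact ⟨hi, Or.inl ⟨sx, hx, rfl⟩⟩
      · intro hrel' hc'
        obtain ⟨-, hy, hya⟩ := hrel'
        obtain ⟨sy, ny⟩ := hFB y hy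
        have hai : a = i := hc' a (Or.inl rfl)
        subst hai
        refine ⟨[y], ?_, List.nodup_singleton y, ?_⟩
        · unfold aE at hya
          cases hsi : s (v a) with
          | true =>
            rw [if_pos hsi] at hya
            have hsi' : s (v (a + 1)) = false := by
              rw [hsi] at hne'
              cases h : s (v (a + 1)) with
              | true => rw [h] at hne'; exact absurd rfl hne'
              | false => rfl
            have e1 : G.Adj y (v (a + 1)) := hs _ _ (ny (a + 1)) (by rw [hsi', sy])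
            simp [e1, hya]
          | false =>
            rw [if_neg (by rw [hsi]; exact Bool.false_ne_true)] at hya
            have e1 : G.Adj (v a) y := hs _ _ (fun h => ny a h.symm) (by rw [hsi, sy])
            simp [e1, hya.symm]
        · intro w hw
          rw [List.mem_singleton.1 hw]
          exact ⟨hi, Or.inr ⟨sy, hy, rfl⟩⟩
      · intro hrel' _
        exact hrel'.elim
    · refine ⟨[], ?_, List.nodup_nil, fun w hw => absurd hw List.not_mem_nil⟩
      have h := hJ' i hi
      simpa using h
  choose P hP1 hP2 hP3 using key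
  refine ⟨P, hP1, hP2, ?_, ?_⟩
  · intro i j hij x hxi hxj
    obtain ⟨hi, h3⟩ := hP3 i x hxi
    obtain ⟨hj, h4⟩ := hP3 j x hxj
    apply hij
    apply hb i hi j hj
    rcases h3 with ⟨s3, -, e3⟩ | ⟨s3, -, e3⟩ <;> rcases h4 with ⟨s4, -, e4⟩ | ⟨s4, -, e4⟩
    · exact h1 _ (ha i hi) _ (ha j hj) (e3.trans e4.symm)
    · rw [s3] at s4
      cases s4
    · rw [s3] at s4
      cases s4
    · exact h2 _ (ha i hi) _ (ha j hj) (e3.trans e4.symm)
  · intro i x hx
    obtain ⟨-, h3⟩ := hP3 i x hx
    rcases h3 with ⟨-, h4, -⟩ | ⟨-, h4, -⟩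
    · exact (hFA x h4).2
    · exact (hFB x h4).2

end Kcb
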